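import Pool.Agent.Y781.EP.Pw

/-!
The barriers for the negative parts of the modes (`S_BAR2`, endpoint dynamics), adapted from
`Pool.Agent.Y278.NF.BAR2`.
-/

open Set Filter Topology MeasureTheory

set_option autoImplicit false

namespace Pool.Agent.Y781.EP

open Pool.Agent.Y8.EP
open Pool.Agent.Y5.E (At Aw Ut Uw loc)
open Pool.Agent.Y5.F (vfk Yk Wk bar)

variable {κ lam N : ℝ} {L C ℓ : ℕ → ℝ} {B : ℕ → ℕ → ℝ} {T : ℝ}
  {x w f : ℕ → ℝ → ℝ} {n : ℕ} {σ : ℕ → ℝ} {t1 t : ℝ}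

/-- lower bound for the vector field at a negative mode, with the damping -/
lemma vf_ge_neg' (g : Gd κ lam N L C ℓ B T x w f) {t : ℝ} (ht : t ∈ Ico 0 T) (m : ℕ)
    (hx : x m t ≤ 0) :
    -((C m * L m * |x (m + 1) t| + 1001 / 1000 * Ut L x m t - ℓ m) * |x m t|)
        - 1001 / 1000 * L m * (κ ^ 2 * Yk κ x w (m + 1) t) - |f m t|
      ≤ vfk κ L C ℓ B (fun k => x k t) m + f m t := by
  obtain ⟨h1, h2, h3, h4⟩ := g.vf_terms ht m
  have h5 : |x m t| = -(x m t) := abs_of_nonpos hx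
  have h6 := neg_abs_le (f m t)
  have h7 := neg_le_of_abs_le h1
  have h8 := le_of_abs_le h4
  have h9 := Gd.src_nonneg (x := x) g.q m t
  unfold vfk
  unfold Gd.src at h9
  simp only
  rw [h5] at h7 h8 ⊢
  linarith

/-- a product of the form `K N lam ^ k exp (β lam)` times `G nb` -/
lemma pk (q : Pe κ lam N L C ℓ B) (τ : ℝ) (j k : ℕ) (hk : k ≤ 5)
    {K β G : ℝ} (hG : 0 ≤ G) (hK0 : 0 ≤ K) (hK : K ≤ 10 ^ 40) (h : β ≤ -(1 / 1000)) :
    K * N * lam ^ k * Real.exp (β * lam) * (G * nb lam C x n j τ)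
      ≤ 1 / 10 ^ 20 * (G * nb lam C x n j τ) := by
  have h1 := tiny q k hk hK0 hK h
  have hb := nb_pos lam C x n j τ
  gcongr

lemma Lm (q : Pe κ lam N L C ℓ B) (n j : ℕ) : L (n + 2 + j) = lam * L (n + 1 + j) := by
  rw [show n + 2 + j = n + 1 + j + 1 by ring, q.L_succ]

/-- first term of the force -/
lemma f1 (H : BH κ lam N L C ℓ B T x w f n σ t1 t) {τ : ℝ} (hτ : τ ∈ Icc (σ n) t)
    (b : B1 κ lam C x w n τ) (j : ℕ) :
    N * (L (n + 2 + j) * (At lam x w (n + 2 + j) τ + √(Yk κ x w (n + 2 + j) τ))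
      * √(Wk κ w (n + 2 + j) τ)) ≤ 1 / 10 ^ 20 * (L (n + 1 + j) * nb lam C x n j τ) := by
  have hN := H.g.q.N_one
  have hl := H.g.q.lamp
  have hL := H.g.q.Lp (n + 1 + j)
  have hd := dd_pos lam
  have hb := bb_pos lam C x n j τ
  have h1 : At lam x w (n + 2 + j) τ ≤ 2 := by
    rw [add_assoc]; exact A_le H hτ b (2 + j)
  have h2 := (b.2 j).1.trans (bb_small H hτ j)
  have h3 := W_le H hτ b j
  have h4 : At lam x w (n + 2 + j) τ + √(Yk κ x w (n + 2 + j) τ) ≤ 3 := by linarith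
  have h5 := pk (C := C) (x := x) (n := n) H.g.q τ j 1 (by norm_num) (K := 6) (G := L (n + 1 + j))
    (β := -(1 / 2) + (Pn (j + 1) - Pp (j + 1))) hL.le (by norm_num)
    (by norm_num) (by unfold Pn Pp; linarith)
  have hA0 := H.g.A_nonneg (tI H hτ) (n + 2 + j)
  refine le_trans ?_ h5
  rw [Lm H.g.q n j]
  calc N * (lam * L (n + 1 + j) * (At lam x w (n + 2 + j) τ + √(Yk κ x w (n + 2 + j) τ))
        * √(Wk κ w (n + 2 + j) τ))
      ≤ N * (lam * L (n + 1 + j) * 3 * (2 * dd lam * bb lam C x n j τ)) := by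
        gcongr
    _ = 6 * N * lam ^ 1 * (dd lam * Real.exp ((Pn (j + 1) - Pp (j + 1)) * lam))
          * (L (n + 1 + j) * nb lam C x n j τ) := by
        rw [bb_nb j j τ]; ring
    _ = _ := by
        rw [dd, e2]

/-- second term of the force -/
lemma f2 (H : BH κ lam N L C ℓ B T x w f n σ t1 t) {τ : ℝ} (hτ : τ ∈ Icc (σ n) t)
    (b : B1 κ lam C x w n τ) (j : ℕ) :
    N * (Uw L w (n + 2 + j) τ * √(Yk κ x w (n + 2 + j) τ))
      ≤ 1 / 10 ^ 20 * (L (n + 1 + j) * nb lam C x n j τ) := by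
  have hN := H.g.q.N_one
  have hl := H.g.q.lamp
  have hl1 := H.g.q.lam1
  have hL := H.g.q.Lp (n + 1 + j)
  have hd := dd_pos lam
  have hb := bb_pos lam C x n j τ
  have hnb := nb_pos lam C x n j τ
  have h1 := Uw_le H hτ b (j + 1)
  rw [show n + (j + 1) + 1 = n + 2 + j by ring, show n + (j + 1) = n + 1 + j by ring] at h1
  have h2 := (b.2 j).1
  have h5 := pk (C := C) (x := x) (n := n) H.g.q τ j 0 (by norm_num) (K := 2) (G := L (n + 1 + j))
    (β := -(1 / 2) + (Pn (j + 1) - Pp (j + 1))) hL.le (by norm_num)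
    (by norm_num) (by unfold Pn Pp; linarith)
  refine le_trans ?_ h5
  calc N * (Uw L w (n + 2 + j) τ * √(Yk κ x w (n + 2 + j) τ))
      ≤ N * ((2 * dd lam * L (n + 1 + j)) * bb lam C x n j τ) := by gcongr
    _ = 2 * N * lam ^ 0 * (dd lam * Real.exp ((Pn (j + 1) - Pp (j + 1)) * lam))
          * (L (n + 1 + j) * nb lam C x n j τ) := by
        rw [bb_nb j j τ]; ring
    _ = _ := by rw [dd, e2]

/-- third term of the force -/
lemma f3 (H : BH κ lam N L C ℓ B T x w f n σ t1 t) {τ : ℝ} (hτ : τ ∈ Icc (σ n) t)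
    (b : B1 κ lam C x w n τ) (j : ℕ) :
    N * (L (n + 2 + j) * Aw lam w (n + 2 + j) τ * √(Yk κ x w (n + 2 + j + 1) τ))
      ≤ 1 / 10 ^ 20 * (L (n + 1 + j) * nb lam C x n j τ) := by
  have hN := H.g.q.N_one
  have hl := H.g.q.lamp
  have hL := H.g.q.Lp (n + 1 + j)
  have hd := dd_pos lam
  have hb := bb_pos lam C x n j τ
  have h1 : Aw lam w (n + 2 + j) τ ≤ 2 * dd lam := by
    rw [add_assoc]; exact Aw_le H hτ b (2 + j)
  have h2 := (b.2 (j + 1)).1.trans (bb_succ H j τ)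
  rw [← add_assoc] at h2
  have h5 := pk (C := C) (x := x) (n := n) H.g.q τ j 1 (by norm_num) (K := 2) (G := L (n + 1 + j))
    (β := -(1 / 2) + (Pn (j + 1) - Pp (j + 1))) hL.le (by norm_num)
    (by norm_num) (by unfold Pn Pp; linarith)
  refine le_trans ?_ h5
  rw [Lm H.g.q n j]
  calc N * (lam * L (n + 1 + j) * Aw lam w (n + 2 + j) τ * √(Yk κ x w (n + 2 + j + 1) τ))
      ≤ N * (lam * L (n + 1 + j) * (2 * dd lam) * bb lam C x n j τ) := by
        gcongr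
    _ = 2 * N * lam ^ 1 * (dd lam * Real.exp ((Pn (j + 1) - Pp (j + 1)) * lam))
          * (L (n + 1 + j) * nb lam C x n j τ) := by
        rw [bb_nb j j τ]; ring
    _ = _ := by
        rw [dd, e2]

/-- fourth term of the force -/
lemma f4 (H : BH κ lam N L C ℓ B T x w f n σ t1 t) {τ : ℝ} (hτ : τ ∈ Icc (σ n) t)
    (b : B1 κ lam C x w n τ) (j : ℕ) :
    N * loc L x w (n + 2 + j) τ ≤ 1 / 10 ^ 20 * (L (n + 1 + j) * nb lam C x n j τ) := by
  have hN := H.g.q.N_one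
  have hl := H.g.q.lamp
  have hL := H.g.q.Lp (n + 1 + j)
  have hd := dd_pos lam
  have hds := dd_small H.g.q
  have hnb := nb_pos lam C x n j τ
  have hτI := tI H hτ
  have hm : ¬ (n + 2 + j = 0) := by omega
  have e1 : n + 2 + j - 1 = n + (j + 1) := by omega
  have e0 : n + 2 + j - 2 = n + j := by omega
  rw [loc, if_neg hm, e1, e0]
  have hw0 := H.g.sy.w0 (n + j) τ hτI
  have hw1 := H.g.sy.w0 (n + (j + 1)) τ hτI
  have eL : L (n + (j + 1)) = L (n + 1 + j) := by congr 1; ring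
  rcases Nat.lt_or_ge j 2 with hj2 | hj2
  · -- j ≤ 1
    have hjr : (j : ℝ) ≤ 1 := by exact_mod_cast Nat.lt_succ_iff.1 hj2
    obtain ⟨h1, h2⟩ := xw H hτ b (j + 1)
    obtain ⟨h3, h4⟩ := xw H hτ b j
    have h7 := one_le_nb (x := x) (n := n) H.g.q τ j
    have h8 := pk (C := C) (x := x) (n := n) H.g.q τ j 0 (by norm_num) (K := 8)
      (G := L (n + 1 + j)) (β := -(1 / 2) + Pn (j + 1)) hL.le (by norm_num) (by norm_num)
      (by unfold Pn; push_cast; linarith)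
    refine le_trans ?_ h8
    have h9 : |x (n + (j + 1)) τ| + w (n + (j + 1)) τ + |x (n + j) τ| + w (n + j) τ ≤ 4 := by
      linarith
    have h10 : w (n + (j + 1)) τ + w (n + j) τ ≤ 2 * dd lam := by linarith
    rw [eL]
    calc N * (L (n + 1 + j) * ((|x (n + (j + 1)) τ| + w (n + (j + 1)) τ + |x (n + j) τ|
            + w (n + j) τ) * (w (n + (j + 1)) τ + w (n + j) τ)))
        ≤ N * (L (n + 1 + j) * (4 * (2 * dd lam))) := by gcongr
      _ = (8 * N * dd lam * L (n + 1 + j)) * 1 := by ring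
      _ ≤ (8 * N * dd lam * L (n + 1 + j))
            * (nb lam C x n j τ * Real.exp (Pn (j + 1) * lam)) := by
          gcongr
      _ = 8 * N * lam ^ 0 * (dd lam * Real.exp (Pn (j + 1) * lam))
            * (L (n + 1 + j) * nb lam C x n j τ) := by ring
      _ = _ := by rw [dd, e2]
  · -- j ≥ 2
    obtain ⟨i, rfl⟩ : ∃ i, j = i + 2 := ⟨j - 2, by omega⟩
    have hbi := bb_pos lam C x n i τ
    have hbs := bb_small H hτ i
    have hY := (b.2 i).1
    have e3 : n + (i + 2 + 1) = n + 2 + (i + 1) := by ring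
    have e4 : n + (i + 2) = n + 2 + i := by ring
    rw [eL]
    rw [e3] at hw1
    rw [e4] at hw0
    rw [e3, e4]
    have hY1 := (b.2 (i + 1)).1.trans (bb_succ H i τ)
    have h1 : |x (n + 2 + (i + 1)) τ| ≤ bb lam C x n i τ :=
      (H.g.x_le hτI _).trans hY1
    have h2 : w (n + 2 + (i + 1)) τ ≤ bb lam C x n i τ :=
      (H.g.w_le hτI _).trans hY1
    have h3 : |x (n + 2 + i) τ| ≤ bb lam C x n i τ :=
      (H.g.x_le hτI _).trans hY
    have h4 : w (n + 2 + i) τ ≤ bb lam C x n i τ :=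
      (H.g.w_le hτI _).trans hY
    have h5 : w (n + 2 + (i + 1)) τ ≤ dd lam * bb lam C x n i τ :=
      (b.2 (i + 1)).2.trans (by have := bb_succ H i τ; gcongr)
    have h6 := (b.2 i).2
    have h8 := pk (C := C) (x := x) (n := n) H.g.q τ (i + 2) 0 (by norm_num) (K := 8)
      (G := L (n + 1 + (i + 2)))
      (β := -(1 / 2) + (Pn (i + 2 + 1) - Pp (i + 1))) hL.le (by norm_num)
      (by norm_num) (by unfold Pn Pp; push_cast; linarith)
    refine le_trans ?_ h8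
    have h9 : |x (n + 2 + (i + 1)) τ| + w (n + 2 + (i + 1)) τ + |x (n + 2 + i) τ|
        + w (n + 2 + i) τ ≤ 4 := by linarith
    have h10 : w (n + 2 + (i + 1)) τ + w (n + 2 + i) τ ≤ 2 * dd lam * bb lam C x n i τ := by
      linarith
    calc N * (L (n + 1 + (i + 2)) * ((|x (n + 2 + (i + 1)) τ| + w (n + 2 + (i + 1)) τ
            + |x (n + 2 + i) τ| + w (n + 2 + i) τ)
            * (w (n + 2 + (i + 1)) τ + w (n + 2 + i) τ)))
        ≤ N * (L (n + 1 + (i + 2)) * (4 * (2 * dd lam * bb lam C x n i τ))) := by gcongr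
      _ = 8 * N * lam ^ 0 * (dd lam * Real.exp ((Pn (i + 2 + 1) - Pp (i + 1)) * lam))
            * (L (n + 1 + (i + 2)) * nb lam C x n (i + 2) τ) := by
          rw [bb_nb i (i + 2) τ]; ring
      _ = _ := by rw [dd, e2]

/-- the force is negligible -/
lemma fb_le (H : BH κ lam N L C ℓ B T x w f n σ t1 t) {τ : ℝ} (hτ : τ ∈ Icc (σ n) t)
    (b : B1 κ lam C x w n τ) (j : ℕ) :
    |f (n + 2 + j) τ| ≤ 1 / 10 ^ 10 * (L (n + 1 + j) * nb lam C x n j τ) := by
  have h0 := H.g.sy.fb (n + 2 + j) τ (tI H hτ)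
  have h1 := f1 H hτ b j
  have h2 := f2 H hτ b j
  have h3 := f3 H hτ b j
  have h4 := f4 H hτ b j
  have h5 : 0 < L (n + 1 + j) * nb lam C x n j τ :=
    mul_pos (H.g.q.Lp _) (nb_pos lam C x n j τ)
  linarith

/-- the quadratic terms are negligible -/
lemma qd_le (H : BH κ lam N L C ℓ B T x w f n σ t1 t) {τ : ℝ} (hτ : τ ∈ Icc (σ n) t)
    (b : B1 κ lam C x w n τ) (j : ℕ) :
    1001 / 1000 * L (n + 2 + j) * (κ ^ 2 * Yk κ x w (n + 2 + j + 1) τ)
      ≤ 1 / 10 ^ 20 * (L (n + 1 + j) * nb lam C x n j τ) := by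
  have hj : (0 : ℝ) ≤ j := Nat.cast_nonneg j
  have hN := H.g.q.N_one
  have hl := H.g.q.lamp
  have hL := H.g.q.Lp (n + 1 + j)
  have hb := bb_pos lam C x n j τ
  have hnb := nb_pos lam C x n j τ
  have h3 : Yk κ x w (n + 2 + j + 1) τ ≤ bb lam C x n (j + 1) τ * bb lam C x n (j + 1) τ := by
    have h4 := (b.2 (j + 1)).1
    rw [← add_assoc] at h4
    have h5 := Real.mul_self_sqrt (H.g.Y_nonneg (n + 2 + j + 1) τ)
    have h6 := Real.sqrt_nonneg (Yk κ x w (n + 2 + j + 1) τ)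
    rw [← h5]
    exact mul_le_mul h4 h4 h6 (bb_pos lam C x n (j + 1) τ).le
  have h7 := bb_le H hτ (j + 1)
  have h8 := pk (C := C) (x := x) (n := n) H.g.q τ j 1 (by norm_num) (K := 2) (G := L (n + 1 + j))
      (β := (-(Pp (j + 1 + 1)) + 5576 / 100000) + (Pn (j + 1) - Pp (j + 1 + 1))) hL.le (by norm_num)
      (by norm_num) (by unfold Pn Pp; push_cast; linarith)
  refine le_trans ?_ h8
  have hb1 := bb_pos lam C x n (j + 1) τ
  have hY0 := H.g.Y_nonneg (n + 2 + j + 1) τ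
  have hc : (1001 / 1000 : ℝ) ≤ 2 := by norm_num
  have hκ : κ ^ 2 * Yk κ x w (n + 2 + j + 1) τ ≤ Yk κ x w (n + 2 + j + 1) τ :=
    mul_le_of_le_one_left hY0 H.g.q.κsq
  have hκ0 : 0 ≤ κ ^ 2 * Yk κ x w (n + 2 + j + 1) τ := mul_nonneg (H.g.q.κk0 2).le hY0
  rw [Lm H.g.q n j]
  calc 1001 / 1000 * (lam * L (n + 1 + j)) * (κ ^ 2 * Yk κ x w (n + 2 + j + 1) τ)
      ≤ 2 * (lam * L (n + 1 + j)) * (bb lam C x n (j + 1) τ * bb lam C x n (j + 1) τ) :=
        mul_le_mul (by gcongr) (hκ.trans h3) hκ0 (by positivity)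
    _ ≤ 2 * (lam * L (n + 1 + j)) * (Real.exp ((-(Pp (j + 1 + 1)) + 5576 / 100000) * lam)
          * bb lam C x n (j + 1) τ) := by gcongr
    _ = 2 * (lam * L (n + 1 + j)) * (Real.exp ((-(Pp (j + 1 + 1)) + 5576 / 100000) * lam)
          * (nb lam C x n j τ * Real.exp ((Pn (j + 1) - Pp (j + 1 + 1)) * lam))) := by
        rw [bb_nb (j + 1) j τ]
    _ = 2 * 1 * lam ^ 1 * (Real.exp ((-(Pp (j + 1 + 1)) + 5576 / 100000) * lam)
          * Real.exp ((Pn (j + 1) - Pp (j + 1 + 1)) * lam))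
          * (L (n + 1 + j) * nb lam C x n j τ) := by ring
    _ ≤ 2 * N * lam ^ 1 * (Real.exp ((-(Pp (j + 1 + 1)) + 5576 / 100000) * lam)
          * Real.exp ((Pn (j + 1) - Pp (j + 1 + 1)) * lam))
          * (L (n + 1 + j) * nb lam C x n j τ) := by
        gcongr
    _ = _ := by rw [e2]

/-- the backward term is negligible -/
lemma bk_le (H : BH κ lam N L C ℓ B T x w f n σ t1 t) {τ : ℝ} (hτ : τ ∈ Icc (σ n) t)
    (b : B1 κ lam C x w n τ) (j : ℕ) :
    C (n + 2 + j) * L (n + 2 + j) * |x (n + 2 + j + 1) τ| ≤ 1 / 10 ^ 10 * L (n + 1 + j) := by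
  have h1 := H.g.q.C_small (n + 2 + j)
  have h2 := H.g.q.Cp (n + 2 + j)
  have h3 : |x (n + 2 + (j + 1)) τ| ≤ bb lam C x n (j + 1) τ :=
    (H.g.x_le (tI H hτ) _).trans (b.2 (j + 1)).1
  rw [← add_assoc] at h3
  have h4 := lam_bb H hτ (j + 1)
  have h5 := H.g.q.Lp (n + 1 + j)
  have hl := H.g.q.lamp
  have hb := bb_pos lam C x n (j + 1) τ
  rw [Lm H.g.q n j]
  calc C (n + 2 + j) * (lam * L (n + 1 + j)) * |x (n + 2 + j + 1) τ|
      ≤ 1 / 10 ^ 20 * (lam * L (n + 1 + j)) * bb lam C x n (j + 1) τ := by gcongr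
    _ = 1 / 10 ^ 20 * (lam * bb lam C x n (j + 1) τ) * L (n + 1 + j) := by ring
    _ ≤ 1 / 10 ^ 20 * (1 / 10 ^ 20) * L (n + 1 + j) := by gcongr
    _ ≤ _ := by gcongr; norm_num

/-- the rate -/
lemma rate (H : BH κ lam N L C ℓ B T x w f n σ t1 t) {τ θ : ℝ} (hτ : τ ∈ Icc (σ n) t)
    (b : B1 κ lam C x w n τ)
    (hθ : L (n + 1) * (zz C x n τ * max (zz C x n τ - 8952 / 10000) 0) ≤ θ) (j : ℕ) :
    C (n + 2 + j) * L (n + 2 + j) * |x (n + 2 + j + 1) τ| + 1001 / 1000 * Ut L x (n + 2 + j) τ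
      - ℓ (n + 2 + j) ≤ θ - 1 / 10 ^ 4 * L (n + 1 + j) := by
  have h1 := bk_le H hτ b j
  have hz := zz_pos H hτ
  have hm0 : 0 ≤ max (zz C x n τ - 8952 / 10000) 0 := le_max_right _ _
  have hℓ : ℓ (n + 2 + j) = 9 / 10 * L (n + 1 + j) := by
    rw [show n + 2 + j = n + 1 + j + 1 by ring, H.g.q.ℓ_succ]
  rw [hℓ]
  rcases j with _ | i
  · have h2 := U_le0 H hτ b
    rw [add_zero] at h1 ⊢
    rw [add_zero]
    have hL := H.g.q.Lp (n + 1)
    set z := zz C x n τ with hzd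
    set mm := max (z - 8952 / 10000) 0 with hmm
    have hm1 : z - 8952 / 10000 ≤ mm := le_max_left _ _
    have key : 1 / 10 ^ 10 + 1001 / 1000 * (z + 1 / 10 ^ 20) - 9 / 10 + 1 / 10 ^ 4 ≤ z * mm := by
      have h3 : z * (z - 8952 / 10000) ≤ z * mm := mul_le_mul_of_nonneg_left hm1 hz.le
      nlinarith [sq_nonneg (z - 9481 / 10000)]
    have h4 : L (n + 1) * (1 / 10 ^ 10 + 1001 / 1000 * (z + 1 / 10 ^ 20) - 9 / 10 + 1 / 10 ^ 4)
        ≤ L (n + 1) * (z * mm) := by gcongr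
    rw [add_zero] at *
    linarith
  · have h2 := U_leS H hτ b i
    have hL := H.g.q.Lp (n + 1 + (i + 1))
    have hL0 := H.g.q.Lp (n + 1)
    have h3 : 0 ≤ L (n + 1) * (zz C x n τ * max (zz C x n τ - 8952 / 10000) 0) := by positivity
    have e : L (n + 2 + i) = L (n + 1 + (i + 1)) := by congr 1; ring
    rw [e] at h2
    linarith

/-- the barriers for the negative parts of the modes -/
theorem t_BAR2 : S_BAR2 := by
  intro κ lam N L C ℓ B T x w f n σ t1 t H hb τ0 hτ0 j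
  have hl := H.g.q.lamp
  have hsub : Icc (σ n) τ0 ⊆ Icc (σ n) t := Icc_subset_Icc_right hτ0.2
  have hsubo : Ioo (σ n) τ0 ⊆ Ioo (σ n) t := Ioo_subset_Ioo_right hτ0.2
  have key := bar (φ := fun τ => -(x (n + 2 + j) τ))
    (φ' := fun τ => -(vfk κ L C ℓ B (fun k => x k τ) (n + 2 + j) + f (n + 2 + j) τ))
    (th := th lam C x n) (th' := fun τ => deriv (th lam C x n) τ) (a := σ n) (b := τ0)
    (K := Real.exp (-(Pn (j + 1)) * lam)) hτ0.1 (by positivity)
    (((H.g.cont (n + 2 + j)).mono fun τ hτ => tI H (hsub hτ)).neg)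
    ((th_cont H).mono hsub)
    (fun τ hτ => (H.g.derivAt (n + 2 + j) (tI0 H (hsubo hτ))).fun_neg)
    (fun τ hτ => by
      obtain ⟨θ, h1, _⟩ := th_deriv H (hsubo hτ)
      rw [h1.deriv]; exact h1)
    (fun τ hτ hlt => by
      have hτ' : τ ∈ Icc (σ n) t := hsub ⟨hτ.1.le, hτ.2.le⟩
      obtain ⟨θ, h1, h2⟩ := th_deriv H (hsubo hτ)
      rw [h1.deriv]
      have b : B1 κ lam C x w n τ := hb τ hτ'
      have hnb := nb_pos lam C x n j τ
      have hlt' : nb lam C x n j τ < -(x (n + 2 + j) τ) := hlt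
      have hneg : x (n + 2 + j) τ ≤ 0 := by linarith
      have h3 := vf_ge_neg' H.g (tI H hτ') (n + 2 + j) hneg
      have h4 := rate H hτ' b h2 j
      have h6 := qd_le H hτ' b j
      have h7 := fb_le H hτ' b j
      have hL := H.g.q.Lp (n + 1 + j)
      set φ := -(x (n + 2 + j) τ) with hφ
      have habs : |x (n + 2 + j) τ| = φ := abs_of_nonpos hneg
      rw [habs] at h3
      have hφ0 : 0 < φ := hnb.trans hlt'
      have h8 : L (n + 1 + j) * nb lam C x n j τ ≤ L (n + 1 + j) * φ := by gcongr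
      have h9 : (C (n + 2 + j) * L (n + 2 + j) * |x (n + 2 + j + 1) τ|
          + 1001 / 1000 * Ut L x (n + 2 + j) τ - ℓ (n + 2 + j)) * φ
          ≤ (θ - 1 / 10 ^ 4 * L (n + 1 + j)) * φ := by
        gcongr
      have h12 : 0 < L (n + 1 + j) * φ := mul_pos hL hφ0
      show -(vfk κ L C ℓ B (fun k => x k τ) (n + 2 + j) + f (n + 2 + j) τ) ≤ φ * θ
      linarith)
    (by
      have h1 := H.h.ng (j + 1)
      rw [show n + 1 + (j + 1) = n + 2 + j by ring] at h1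
      have h2 := th_nonneg H.g.q x n (σ n)
      show -(x (n + 2 + j) (σ n)) ≤ Real.exp (-(Pn (j + 1)) * lam) * Real.exp (th lam C x n (σ n))
      have h3 := Real.one_le_exp h2
      have h4 := Real.exp_pos (-(Pn (j + 1)) * lam)
      nlinarith)
  have h1 : -(x (n + 2 + j) τ0) ≤ Real.exp (-(Pn (j + 1)) * lam) * Real.exp (th lam C x n τ0) :=
    key
  unfold nb
  linarith

end Pool.Agent.Y781.EP
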